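import Pool.Agent.V11273.PV.G18

/-!
# The modular Schanuel conjecture at arbitrary points of the product of upper half-planes

Let `h` be an analytic map from a nonempty connected open set `D` of `ℂ^n` to the product `ℍ^n` of upper half-planes, the
image of which has inner points. For example `h` is the identity (the points `h(z) = z` are algebraic), a local inverse of
`(j(z_1), …, j(z_n))` (the invariants are algebraic), or a local inverse of the map `exp(2 π i z_k)` (the nomes are algebraic);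
but the coordinates of `h` may also be any other algebraic or transcendental analytic functions of all the variables. For
points `z_k = h_k(x)` which are not special and not equivalent under `GL_2^+(ℚ)` the modular Schanuel conjecture says that `n`
of the `2 n` numbers `z_k`, `j(z_k)` are algebraically independent, with the derivatives `j'(z_k)`, `j''(z_k)` one expects `3 n`
independent numbers, and `4 n` with the nomes `exp(2 π i z_k)` (Bertolin's conjecture), all over `ℚ(π)`.

We prove this in bounded degree and height for almost all points `x ∈ D` with coordinates in a number field: one can choose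
`4 n` of the `5 n` functions

  `h_k(x)`, `j(h_k(x))`, `j'(h_k(x))`, `j''(h_k(x))`, `exp(2 π i h_k(x))`

such that at all points `x ∈ D` of height at most `T` over a number field of degree at most `ω T`, outside of a sparse set,
the chosen `4 n` numbers satisfy no polynomial relation of degree at most `ω T` and height at most `T ^ ω T`, not even with
coefficients which are combinations of arbitrary fixed complex numbers `ξ_i` (for instance of the powers of `π`). Here
`ω T → ∞`. At least `n` of the chosen numbers are among `h_k(x)`, `j(h_k(x))`, as the conjecture says, because only `3 n`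
functions are of the other kinds.
-/

set_option autoImplicit false

open Filter NumberField

namespace Pool.Agent.Results.MP_47914d_nt.ArbitraryPoints

/-- The lattice `ℤ + ℤ τ`. -/
noncomputable def lattice (τ : ℂ) (h : 0 < τ.im) : PeriodPair where
  ω₁ := 1
  ω₂ := τ
  indep := (Pool.Agent.Y685.LL ⟨τ, h⟩).indep

/-- The modular invariant `j = 1728 g₂³ / (g₂³ - 27 g₃²)` on the upper half-plane. -/
noncomputable def j (τ : ℂ) : ℂ :=
  if h : 0 < τ.im then 1728 * (lattice τ h).g₂ ^ 3 / ((lattice τ h).g₂ ^ 3 - 27 * (lattice τ h).g₃ ^ 2) else 0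

theorem j_eq {τ : ℂ} (h : 0 < τ.im) : j τ = Pool.Agent.Y776.jf τ := by
  have h1 : Pool.Agent.Y685.LC τ = lattice τ h := by
    rw [Pool.Agent.Y685.LC, UpperHalfPlane.ofComplex_apply_of_im_pos h]
    rfl
  rw [j, dif_pos h, Pool.Agent.Y776.jf, h1]

theorem j_ev {τ : ℂ} (h : 0 < τ.im) : j =ᶠ[nhds τ] Pool.Agent.Y776.jf := by
  filter_upwards [Pool.Agent.Y776.AxJ.isOpen_H.mem_nhds h] with σ hσ
  exact j_eq hσ

theorem dj_eq {τ : ℂ} (h : 0 < τ.im) : deriv j τ = deriv Pool.Agent.Y776.jf τ := (j_ev h).deriv_eq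

theorem dj_ev {τ : ℂ} (h : 0 < τ.im) : deriv j =ᶠ[nhds τ] deriv Pool.Agent.Y776.jf := by
  filter_upwards [Pool.Agent.Y776.AxJ.isOpen_H.mem_nhds h] with σ hσ
  exact dj_eq hσ

theorem ddj_eq {τ : ℂ} (h : 0 < τ.im) : deriv (deriv j) τ = deriv (deriv Pool.Agent.Y776.jf) τ := (dj_ev h).deriv_eq

/-- The values at `z` of `h_k` (names `inr k`), and of `j(h_k)`, `j'(h_k)`, `j''(h_k)` (complex derivatives of `j`) and
`exp(2 π i h_k)` (names `inl (k, 0)`, …, `inl (k, 3)`). -/
noncomputable def value {n : ℕ} (h : (Fin n → ℂ) → Fin n → ℂ) (z : Fin n → ℂ) : (Σ _ : Fin n, Fin 4) ⊕ Fin n → ℂ :=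
  Sum.elim (fun v => ![j (h z v.1), deriv j (h z v.1), deriv (deriv j) (h z v.1),
    Complex.exp (2 * (Real.pi : ℂ) * Complex.I * h z v.1)] v.2) (h z)

/-- quotients of two integers of `K`, all conjugates of which are at most `T` -/
def HeightLe (K : Type) [Field K] [NumberField K] (T : ℝ) (x : K) : Prop :=
  ∃ a b : 𝓞 K, b ≠ 0 ∧ house (a : K) ≤ T ∧ house (b : K) ≤ T ∧ x = a / b

/-- `S` is covered by at most `m` hypersurfaces of degree at most `D` -/
def CoveredBy {X : Type} (D m : ℕ) (S : Set (X → ℂ)) : Prop :=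
  ∃ Φ : Finset (MvPolynomial X ℂ), Φ.card ≤ m ∧ (∀ P ∈ Φ, P ≠ 0 ∧ P.totalDegree ≤ D) ∧
    ∀ x ∈ S, ∃ P ∈ Φ, MvPolynomial.eval x P = 0

/-- the points of norm at most `k` at distance at least `1 / k` from the complement of `U` -/
def Inner {X : Type} [Fintype X] (U : Set (X → ℂ)) (k : ℕ) : Set (X → ℂ) :=
  {z | ‖z‖ ≤ k ∧ Metric.ball z (k : ℝ)⁻¹ ⊆ U}

/-- the partial degrees of `P` are at most `k`, and its coefficients are `∑ ξ i * c i`, `i < k`, where the `c i` are
integers of `K`, all conjugates of which are at most `T ^ k` -/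
def Small {σ : Type} (K : Type) [Field K] [NumberField K] (io : K →+* ℂ) (k : ℕ) (ξ : Fin k → ℂ) (T : ℝ)
    (P : MvPolynomial σ ℂ) : Prop :=
  (∀ y, P.degreeOf y ≤ k) ∧ ∀ m, ∃ c : Fin k → 𝓞 K, (∀ i (φ : K →+* ℂ), ‖φ (c i : K)‖ ≤ T ^ (k : ℝ)) ∧
    P.coeff m = ∑ i, ξ i * io (c i : K)

/-- The exceptional points `x` over `K`: they are of height at most `T`, in the compact set `Inner D k`, and some nonzero
small polynomial vanishes at the numbers `value h x a`, `a ∈ A`. -/
def Exceptional {n : ℕ} (D : Set (Fin n → ℂ)) (h : (Fin n → ℂ) → Fin n → ℂ) (A : Finset ((Σ _ : Fin n, Fin 4) ⊕ Fin n))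
    (K : Type) [Field K] [NumberField K] (io : K →+* ℂ) (k : ℕ) (ξ : Fin k → ℂ) (T : ℝ) : Set (Fin n → K) :=
  {x | (∀ i, HeightLe K T (x i)) ∧ (fun i => io (x i)) ∈ Inner D k ∧
    ∃ P : MvPolynomial A ℂ, Small K io k ξ T P ∧
      MvPolynomial.eval (fun a => value h (fun i => io (x i)) a.1) P = 0 ∧ P ≠ 0}

/-- Let `h` be an analytic map from a nonempty connected open set `D` of `ℂ^n`, `n ≥ 1`, to `ℍ^n`, the image of which has
inner points. There is a set `A` of `4 n` of the `5 n` functions and there is `ω → ∞` such that for all large `T`, all number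
fields `K` of degree at most `ω T`, embedded in `ℂ`, and all complex numbers `ξ i`, `i < ω T`, the set of the exceptional points
lies on at most `T ^ (1 / ω T)` hypersurfaces of degree at most `T ^ (1 / ω T)`, and has at most
`T ^ (1 / ω T) * N ^ (n - 1)` elements, where `N` is the number of the elements of `K` of height at most `T`. At all other points
`x` with coordinates in `K` of height at most `T` (in `Inner D (ω T)`) the `4 n` numbers given by `A` satisfy no nonzero
polynomial relation of partial degrees at most `ω T` with coefficients `∑ ξ i * c i`, `c i` integers of `K` of size at most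
`T ^ ω T`. -/
theorem result {n : ℕ} (hn : 1 ≤ n) (D : Set (Fin n → ℂ)) (hD : IsOpen D) (hDc : IsPreconnected D) (hDn : D.Nonempty)
    (h : (Fin n → ℂ) → Fin n → ℂ) (hh : AnalyticOnNhd ℂ h D) (him : ∀ z ∈ D, ∀ k, 0 < (h z k).im)
    (hint : (interior (h '' D)).Nonempty) :
    ∃ A : Finset ((Σ _ : Fin n, Fin 4) ⊕ Fin n), A.card = 4 * n ∧
    ∃ (ω : ℝ → ℕ) (T₀ : ℝ), Tendsto ω atTop atTop ∧ Monotone ω ∧ ∀ T, T₀ ≤ T → 0 < ω T ∧
      ∀ (K : Type) [Field K] [NumberField K], Module.finrank ℚ K ≤ ω T → ∀ (io : K →+* ℂ) (ξ : Fin (ω T) → ℂ),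
        CoveredBy ⌊T ^ ((ω T : ℝ)⁻¹)⌋₊ ⌊T ^ ((ω T : ℝ)⁻¹)⌋₊
          ((fun x i => io (x i)) '' Exceptional D h A K io (ω T) ξ T) ∧
        (Exceptional D h A K io (ω T) ξ T).Finite ∧
        ((Exceptional D h A K io (ω T) ξ T).ncard : ℝ) ≤
          T ^ ((ω T : ℝ)⁻¹) * ({x : K | HeightLe K T x}.ncard : ℝ) ^ (n - 1) := by
  have : Nonempty (Fin n) := ⟨⟨0, hn⟩⟩
  obtain ⟨A, hA, hO⟩ := Pool.Agent.V11273.PV.main_J hDc hD hDn hh him hint
  refine ⟨A, hA, ?_⟩
  obtain ⟨ω, T₀, h1, h2, h3⟩ := hO
  have hval : ∀ z ∈ D, ∀ a, value h z a = Pool.Agent.V11273.PV.vJ h z a := by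
    rintro z hz (⟨k, m⟩ | k)
    · have h0 := him z hz k
      change ![j (h z k), deriv j (h z k), deriv (deriv j) (h z k),
        Complex.exp (2 * (Real.pi : ℂ) * Complex.I * h z k)] m = Pool.Agent.V11273.PV.b4n m (h z k)
      fin_cases m
      · exact j_eq h0
      · exact dj_eq h0
      · exact ddj_eq h0
      · rfl
    · rfl
  have hset : ∀ (K : Type) [Field K] [NumberField K] (io : K →+* ℂ) (k : ℕ), 0 < k → ∀ (ξ : Fin k → ℂ) (T : ℝ),
      Exceptional D h A K io k ξ T = Pool.Agent.V11273.PV.ExcB D (fun (a : A) z => Pool.Agent.V11273.PV.vJ h z a.1)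
        (fun _ P => P ≠ 0) K io k ξ T := by
    intro K _ _ io k hk ξ T
    ext x
    constructor
    · rintro ⟨hx1, hx2, P, hP1, hP2, hP3⟩
      refine ⟨hx1, hx2, P, hP1, ?_, hP3⟩
      have hxD : (fun i => io (x i)) ∈ D := Pool.Agent.Y890.MV.innerM_sub D hk hx2
      simp only [hval _ hxD] at hP2
      exact hP2
    · rintro ⟨hx1, hx2, P, hP1, hP2, hP3⟩
      refine ⟨hx1, hx2, P, hP1, ?_, hP3⟩
      have hxD : (fun i => io (x i)) ∈ D := Pool.Agent.Y890.MV.innerM_sub D hk hx2
      simp only [hval _ hxD]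
      exact hP2
  refine ⟨ω, T₀, h1, h2, fun T hT => ⟨(h3 T hT).1, fun K _ _ hK io ξ => ?_⟩⟩
  have h4 := (h3 T hT).2 K hK io ξ
  rw [hset K io (ω T) (h3 T hT).1 ξ T]
  rw [Fintype.card_fin] at h4
  exact h4

end Pool.Agent.Results.MP_47914d_nt.ArbitraryPoints
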