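import Pool.Agent.Results.MP_47914d_nt.RealFieldsPointsNomesJets
import Pool.Agent.H223.NP.Fields

/-!
# Points, nomes and values of `j`, `j'`, `j''` near all points outside of a set of dimension `n - 1`

Let `0 < ρ_1 < … < ρ_m`, let `1, σ_1, …, σ_r` be linearly independent over `ℚ`, and for every `i` let `s_(i 1), …, s_(i p)`
be positive real numbers which are linearly independent over `ℚ`. For `n`-tuples `x` of positive elements of a real number
field we consider the `m n p` points `z = i s_(i k) x_l ^ ρ_i` of the upper half-plane and the numbers `π`, `log x_l`,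
`x_l ^ σ_i`, `exp (-2πi z)`, `j (z)`, `j' (z)`, `j'' (z)`. If `1, ρ_1, …, ρ_m` are linearly independent over `ℚ` and `σ = ρ`
these numbers contain the points `z` (up to the factors `i s_(i k)`) together with the values `j (z)`, as in the modular
Schanuel conjecture.

The starting results (`PointsNomesJets`, `RealFieldsPointsNomesJets`) say that the exceptional tuples, for which these
numbers satisfy a relation of bounded degree and of polynomially bounded height, are rare at every scale. Here there are no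
exceptional tuples: there is ONE set `E` in `ℝ ^ n` of Hausdorff dimension at most `n - 1` such that for all `y` with positive
coordinates outside of `E`, ALL real number fields `K`, all degrees `d`, all `A` and ALL exponents `w > 0` (arbitrarily
small), no tuple `x` in `K ^ n` of height at most `T` with `|x - y| ≤ T ^ (-w)` satisfies a relation, even an approximate
one, of degree at most `d` and height at most `T ^ A`, if `T` is large. (For `w < 1` there are such rational tuples for all
`y` and all large `T`.) The bound for the dimension is sharp: if `y_1 = y_2` there are tuples with `x_1 = x_2` near `y`, so `E`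
contains the positive parts of these hyperplanes for `n ≥ 2`. For `n = 1` the dimension of `E` is zero.

The proof combines the hypersurface covers of the starting result with the theorem on neighbourhoods of hypersurfaces of
bounded degree of helper264 (`Pool.Agent.Helper264.NT`).
-/

set_option autoImplicit false

open Set Height
open scoped ENNReal

namespace Pool.Agent.Results.MP_47914d_nt.NearAlmostEveryPoint

/-- the normalised Eisenstein series of weight `4` -/
noncomputable def E4 (τ : ℂ) : ℂ :=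
  1 + 240 * ∑' m : ℕ, ((ArithmeticFunction.sigma 3 (m + 1) : ℕ) : ℂ) *
    Complex.exp (2 * (Real.pi : ℂ) * Complex.I * τ) ^ (m + 1)

/-- the normalised Eisenstein series of weight `6` -/
noncomputable def E6 (τ : ℂ) : ℂ :=
  1 - 504 * ∑' m : ℕ, ((ArithmeticFunction.sigma 5 (m + 1) : ℕ) : ℂ) *
    Complex.exp (2 * (Real.pi : ℂ) * Complex.I * τ) ^ (m + 1)

/-- the modular invariant `j = q⁻¹ + 744 + 196884 q + ⋯` -/
noncomputable def j (τ : ℂ) : ℂ := 1728 * E4 τ ^ 3 / (E4 τ ^ 3 - E6 τ ^ 2)

/-- `exp (-2πi z), j (z), j' (z), j'' (z)` (complex derivatives) -/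
noncomputable def jet (z : ℂ) : Fin 4 → ℂ :=
  ![Complex.exp (-(2 * (Real.pi : ℂ) * Complex.I * z)), j z, deriv j z, deriv (deriv j) z]

/-- the `(4 m p + r + 1) n + 1` numbers: `π`; for every `l ≤ n` the numbers `log x_l` and `x_l ^ σ_i`; and
`exp (-2πi z), j (z), j' (z), j'' (z)` at the points `z = i s_(i k) x_l ^ ρ_i` -/
noncomputable def numbers {r m p n : ℕ} (σ : Fin r → ℝ) (ρ : Fin m → ℝ) (s : Fin m → Fin p → ℝ) (x : Fin n → ℝ) :
    Option (Fin n × (Option (Fin r) ⊕ (Fin m × (Fin p × Fin 4)))) → ℂ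
  | none => (Real.pi : ℂ)
  | some (l, Sum.inl none) => (Real.log (x l) : ℂ)
  | some (l, Sum.inl (some i)) => ((x l ^ σ i : ℝ) : ℂ)
  | some (l, Sum.inr (i, k, q)) => jet (Complex.I * ((s i k * x l ^ ρ i : ℝ) : ℂ)) q

/-- Some nonzero polynomial of degree at most `d` in each variable, with coefficients in `K` of height at most `U`, has at
the numbers of the tuple `x` of elements of `K` a value of absolute value at most `δ`. -/
def Related {r m p n : ℕ} (σ : Fin r → ℝ) (ρ : Fin m → ℝ) (s : Fin m → Fin p → ℝ) (K : IntermediateField ℚ ℝ)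
    [NumberField K] (d : ℕ) (U δ : ℝ) (x : Fin n → K) : Prop :=
  ∃ P : MvPolynomial (Option (Fin n × (Option (Fin r) ⊕ (Fin m × (Fin p × Fin 4))))) K, P ≠ 0 ∧
    (∀ i, P.degreeOf i ≤ d) ∧ (∀ e, mulHeight₁ (P.coeff e) ≤ U) ∧
    ‖MvPolynomial.eval₂ (Complex.ofRealHom.comp (algebraMap K ℝ)) (numbers σ ρ s (fun l => (x l : ℝ))) P‖ ≤ δ

/-- Let `n ≥ 1`, `0 < ρ_1 < … < ρ_m`, let `1, σ_1, …, σ_r` be linearly independent over `ℚ`, let the `s_(i k)` be positive
and, for every `i`, linearly independent over `ℚ`. There is a subset `E` of `ℝ ^ n` of Hausdorff dimension at most `n - 1`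
such that for all `y` outside of `E` with positive coordinates, all real number fields `K`, all `d`, `A` and `w > 0` there
are `B` and `T₀` such that for all `T ≥ T₀` no `n`-tuple `x` of elements of `K` of height at most `T` with
`|x_l - y_l| ≤ T ^ (-w)` has a relation of degree at most `d`, of height at most `T ^ A`, up to `T ^ (-B)`. -/
theorem result (r m p n : ℕ) (hn : 1 ≤ n) (σ : Fin r → ℝ)
    (ρ : Fin m → ℝ) (s : Fin m → Fin p → ℝ) (hρ0 : ∀ i, 0 < ρ i) (hρ : StrictMono ρ)
    (hσ : ∀ (c0 : ℤ) (c : Fin r → ℤ), (c0 : ℝ) + ∑ i, (c i : ℝ) * σ i = 0 → c0 = 0 ∧ c = 0)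
    (hs0 : ∀ i j, 0 < s i j) (hs : ∀ i, ∀ c : Fin p → ℤ, ∑ j, (c j : ℝ) * s i j = 0 → c = 0) :
    ∃ E : Set (Fin n → ℝ), dimH E ≤ ((n - 1 : ℕ) : ℝ≥0∞) ∧ ∀ y ∉ E, (∀ l, 0 < y l) →
      ∀ (K : IntermediateField ℚ ℝ) [NumberField K] (d : ℕ) (A w : ℝ), 0 < w → ∃ B T₀ : ℝ, ∀ T ≥ T₀,
        ∀ x : Fin n → K, (∀ l, mulHeight₁ (x l) ≤ T ∧ |(x l : ℝ) - y l| ≤ T ^ (-w)) →
          ¬ Related σ ρ s K d (T ^ A) (T ^ (-B)) x := by
  haveI : Nonempty (Fin n) := ⟨⟨0, hn⟩⟩
  obtain ⟨E, hE1, hE2⟩ := Pool.Agent.H223.NP.near_fields (𝕜 := ℝ) (X := Fin n) (fun _ => Ioi 0) (fun _ => isOpen_Ioi)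
    (fun K _ d U δ x => Related σ ρ s K d U δ x)
    (fun K _ d U U' δ δ' t h1 h2 ⟨P, h3, h4, h5, h6⟩ => ⟨P, h3, h4, fun e => (h5 e).trans h1, h6.trans h2⟩)
    (fun K _ d A W hW hW0 ε hε => by
      obtain ⟨a, b, ha, hab, hWab⟩ := Pool.Agent.H223.NP.compact_pos W hW hW0
      obtain ⟨D, B, C, h⟩ := RealFieldsPointsNomesJets.result K (algebraMap K ℝ) r m p n d hn σ ρ s hρ0 hρ hσ hs0 hs A a
        b ε ha hab hε
      refine ⟨D, B, C, fun T hT => ?_⟩
      obtain ⟨⟨Φ, h1, h2, h3⟩, -, -⟩ := h T hT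
      refine ⟨Φ, h1, h2, fun t ht hR => h3 t ⟨fun l => ⟨hWab l (ht l).1, (ht l).2⟩, ?_⟩⟩
      have hnum : RealFieldsPointsNomesJets.numbers (algebraMap K ℝ) σ ρ s t = numbers σ ρ s (fun l => (t l : ℝ)) := by
        funext i
        rcases i with _ | ⟨l, (_ | i) | ⟨i, k, q⟩⟩
        · rfl
        · rfl
        · rfl
        · rfl
      rw [hnum]
      exact hR)
  refine ⟨E, by simpa using hE1, fun y hy hy0 K _ d A w hw => ?_⟩
  obtain ⟨B, T₀, h⟩ := hE2 y hy hy0 K d A w hw
  exact ⟨B, T₀, fun T hT x hx => h T hT x hx⟩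

end Pool.Agent.Results.MP_47914d_nt.NearAlmostEveryPoint
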