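import Pool.Agent.Results.MP_47914d_nt.PointsNomesJets
import Pool.Agent.V11300.PA.Rat

/-!
# Points, nomes and jets of `j` for ALL the rational parameters near almost every `p`-adic point

Let `0 < ρ_1 < … < ρ_l`, for every `i` let `s_(i 1), …, s_(i g)` be positive and linearly independent over `ℚ`, and let
`1, σ_1, …, σ_r` be linearly independent over `ℚ`, `[a, b] ⊂ (0, ∞)`. Let `p` be a prime number and `κ > 0`. For all
`α ∈ ℚ_p ^ n` outside of a set of Hausdorff dimension at most `κ (2 n - 2 / ((d + 1) ^ ((4 l g + r + 1) n + 1) + 1))` and all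
`A` there are `B`, `m₀` such that for all `m ≥ m₀`, with `T = p ^ (κ m)`, and ALL the `n`-tuples `q` of rational numbers in
`[a, b]` with denominators at most `T` and `|q_j - α_j|_p ≤ p ^ (-m)`: every nonzero integral polynomial with coefficients at
most `T ^ A`, of degree at most `d` in each variable, has an absolute value larger than `T ^ (-B)` at the numbers `π`,
`log q_j`, `q_j ^ σ_i` and `exp (-2πi z)`, `j (z)`, `j' (z)`, `j'' (z)`, `z = i s_(i k) q_j ^ ρ_i`.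
The definitions `numbers`, `Exceptional` are those of the starting file `PointsNomesJets`.
-/

set_option autoImplicit false

open Filter Topology

namespace Pool.Agent.Results.MP_47914d_nt.PadicNeighbourhoods

open PointsNomesJets (Exceptional numbers)

/-- **Theorem.** -/
theorem result (r l g n d : ℕ) (hn : 1 ≤ n) (σ : Fin r → ℝ) (ρ : Fin l → ℝ) (s : Fin l → Fin g → ℝ)
    (hρ0 : ∀ i, 0 < ρ i) (hρ : StrictMono ρ)
    (hσ : ∀ (c0 : ℤ) (c : Fin r → ℤ), (c0 : ℝ) + ∑ k, (c k : ℝ) * σ k = 0 → c0 = 0 ∧ c = 0)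
    (hs0 : ∀ i k, 0 < s i k) (hs : ∀ i, ∀ c : Fin g → ℤ, ∑ k, (c k : ℝ) * s i k = 0 → c = 0)
    (a b : ℝ) (ha : 0 < a) (hab : a < b)
    (p : ℕ) [Fact p.Prime] (κ : ℝ) (hκ : 0 < κ) :
    ∃ E : Set (Fin n → ℚ_[p]), dimH E ≤ ENNReal.ofReal (κ * (2 * n - 2 / (((d : ℝ) + 1) ^ ((4 * l * g + r + 1) * n + 1) + 1))) ∧
      ∀ α : Fin n → ℚ_[p], α ∉ E → ∀ A : ℕ, ∃ (B : ℝ) (m₀ : ℕ), ∀ m : ℕ, m₀ ≤ m → ∀ q : Fin n → ℚ,
        (∀ j, (q j : ℝ) ∈ Set.Icc a b ∧ ((q j).den : ℝ) ≤ (p : ℝ) ^ (κ * m)) →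
        (∀ j, ‖((q j : ℚ) : ℚ_[p]) - α j‖ ≤ (p : ℝ) ^ (-(m : ℝ))) →
        ∀ P : MvPolynomial (Option (Fin n × (Option (Fin r) ⊕ (Fin l × (Fin g × Fin 4))))) ℤ, P ≠ 0 → (∀ x, P.degreeOf x ≤ d) →
          (∀ s, |((P.coeff s : ℤ) : ℝ)| ≤ ((p : ℝ) ^ (κ * m)) ^ (A : ℝ)) →
          ((p : ℝ) ^ (κ * m)) ^ (-B) < ‖MvPolynomial.aeval (numbers σ ρ s q) P‖ := by
  obtain ⟨E, h1, h2⟩ := Pool.Agent.V11300.PA.rational_points p hn (Pool.Agent.V11300.PA.beta_nonneg d ((4 * l * g + r + 1) * n + 1)) hκ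
    (fun A B T => Exceptional n d σ ρ s a b A B T) (fun A β hA hβ => PointsNomesJets.result r l g n d hn σ ρ s hρ0 hρ hσ hs0 hs A a b β hA ha hab hβ)
  refine ⟨E, ?_, fun α hα A => ?_⟩
  · have e : (2 * n - 2 / (((d : ℝ) + 1) ^ ((4 * l * g + r + 1) * n + 1) + 1) : ℝ) =
        2 * ((n : ℝ) - 1) + (2 - 2 / (((d : ℝ) + 1) ^ ((4 * l * g + r + 1) * n + 1) + 1)) := by ring
    rw [e]
    exact h1
  · obtain ⟨B, m₀, h⟩ := h2 α hα A
    refine ⟨B, m₀, fun m hm q hq hd P hP0 hPd hPc => ?_⟩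
    by_contra hcon
    rw [not_lt] at hcon
    exact h m hm q hd ⟨hq, P, hP0, hPd, hPc, hcon⟩

end Pool.Agent.Results.MP_47914d_nt.PadicNeighbourhoods
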